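import Mathlib
import Pool.Agent.Run7.h246.SqfreePart

set_option autoImplicit false

namespace Pool.Agent.Results.MP_ea234d_nt.PowerfulShape

/-- Shape of a powerful Mersenne number: if `q` is an odd prime and `2 ^ q - 1` is powerful, then
`2 ^ q - 1 = D ^ 3 * w ^ 2` with `D` squarefree, `D % 8 = 7`, every prime factor `p` of `D`
satisfies `2 q ∣ p - 1` and `p ^ 3 ∣ 2 ^ (p - 1) - 1`, and
`(q - 2) (q + 1) ≤ 2304 (D + 1) (1 + log (18 (D + 1)) / 2)`. -/
theorem result : ∀ q : ℕ, q.Prime → q ≠ 2 →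
    (∀ p : ℕ, p.Prime → p ∣ 2 ^ q - 1 → p ^ 2 ∣ 2 ^ q - 1) →
    ∃ D w : ℕ, Squarefree D ∧ D % 8 = 7 ∧ 2 ^ q - 1 = D ^ 3 * w ^ 2 ∧
      (∀ p : ℕ, p.Prime → p ∣ D → 2 * q ∣ p - 1 ∧ p ^ 3 ∣ 2 ^ (p - 1) - 1) ∧
      ((q : ℝ) - 2) * ((q : ℝ) + 1) ≤
        2304 * ((D : ℝ) + 1) * (1 + Real.log (18 * ((D : ℝ) + 1)) / 2) := by
  intro q hq hq2 hpow
  have hqodd : Odd q := hq.odd_of_ne_two hq2
  have hq3 : 3 ≤ q := by
    have := hq.two_le
    omega
  obtain ⟨D, b, hbD, hsq⟩ := Nat.sq_mul_squarefree (2 ^ q - 1)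
  have hM : 0 < 2 ^ q - 1 := by
    have : 2 ^ 3 ≤ 2 ^ q := Nat.pow_le_pow_right (by norm_num) hq3
    omega
  have hD0 : D ≠ 0 := by
    rintro rfl
    rw [mul_zero] at hbD; omega
  have hDb : D ∣ b := by
    rw [← Nat.prod_primeFactors_of_squarefree hsq]
    apply Finset.prod_primes_dvd
    · intro p hp
      exact (Nat.prime_of_mem_primeFactors hp).prime
    · intro p hp
      have hpp := Nat.prime_of_mem_primeFactors hp
      have hpD := Nat.dvd_of_mem_primeFactors hp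
      by_contra hpb
      have h1 : p ∣ 2 ^ q - 1 := by rw [← hbD]; exact hpD.mul_left _
      have h2 := hpow p hpp h1
      rw [← hbD] at h2
      have h3 : Nat.Coprime (p ^ 2) (b ^ 2) := by
        apply Nat.Coprime.pow
        exact (Nat.Prime.coprime_iff_not_dvd hpp).2 hpb
      have h4 : p ^ 2 ∣ D := h3.dvd_of_dvd_mul_left h2
      have h5 := hsq p (by rw [← pow_two]; exact h4)
      exact hpp.one_lt.ne' (Nat.isUnit_iff.1 h5)
  obtain ⟨w, rfl⟩ := hDb
  have hshape : 2 ^ q - 1 = D ^ 3 * w ^ 2 := by rw [← hbD]; ring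
  have h1z : 1 + (D : ℤ) * ((D : ℤ) * w) ^ 2 = 2 ^ q := by
    have h3 : 1 + D * (D * w) ^ 2 = 2 ^ q := by
      have h4 : (D * w) ^ 2 * D = D * (D * w) ^ 2 := by ring
      rw [h4] at hbD
      omega
    exact_mod_cast h3
  obtain ⟨-, -, hD8, -⟩ := Run7.h246.setup (D : ℤ) ((D : ℤ) * w) q hq3 h1z
  refine ⟨D, w, hsq, by omega, hshape, ?_, ?_⟩
  · intro p hp hpD
    have hpM : p ∣ 2 ^ q - 1 := by
      rw [hshape, pow_succ, mul_assoc]
      exact (hpD.mul_left _).trans (by rw [← mul_assoc]; exact dvd_mul_right _ _)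
    have hp3 : p ^ 3 ∣ 2 ^ q - 1 := by
      rw [hshape]
      exact (pow_dvd_pow_of_dvd hpD 3).mul_right _
    have hp2 : p ≠ 2 := by
      rintro rfl
      have h2 : 2 ∣ 2 ^ q := dvd_pow_self 2 (by omega)
      have h3 : 2 ∣ 2 ^ q - (2 ^ q - 1) := Nat.dvd_sub h2 hpM
      have h4 : 2 ^ q - (2 ^ q - 1) = 1 := by omega
      rw [h4] at h3
      omega
    have : Fact p.Prime := ⟨hp⟩
    have hz : (2 : ZMod p) ^ q = 1 := by
      have h2 : ((2 ^ q - 1 : ℕ) : ZMod p) = 0 := (ZMod.natCast_eq_zero_iff _ _).2 hpM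
      rw [Nat.cast_sub Nat.one_le_two_pow] at h2
      push_cast at h2
      linear_combination h2
    have hord : orderOf (2 : ZMod p) = q := by
      have hdvd : orderOf (2 : ZMod p) ∣ q := orderOf_dvd_of_pow_eq_one hz
      rcases (Nat.dvd_prime hq).1 hdvd with h | h
      · exfalso
        rw [orderOf_eq_one_iff] at h
        have h5 : (1 : ZMod p) = 0 := by linear_combination h
        exact one_ne_zero h5
      · exact h
    have h20 : (2 : ZMod p) ≠ 0 := by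
      intro h0
      have h6 : ((2 : ℕ) : ZMod p) = 0 := by exact_mod_cast h0
      rw [ZMod.natCast_eq_zero_iff] at h6
      have := (Nat.prime_dvd_prime_iff_eq hp Nat.prime_two).1 h6
      exact hp2 this
    have hqp : q ∣ p - 1 := by
      rw [← hord]
      exact orderOf_dvd_of_pow_eq_one (ZMod.pow_card_sub_one_eq_one h20)
    refine ⟨?_, ?_⟩
    · have h2p : 2 ∣ p - 1 := by
        have := hp.odd_of_ne_two hp2
        obtain ⟨c, hc⟩ := this
        exact ⟨c, by omega⟩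
      have hcop : Nat.Coprime 2 q := (Nat.coprime_primes Nat.prime_two hq).2 (Ne.symm hq2)
      exact hcop.mul_dvd_of_dvd_of_dvd h2p hqp
    · obtain ⟨c, hc⟩ := hqp
      have h7 : 2 ^ q - 1 ∣ 2 ^ (p - 1) - 1 := by
        rw [hc, pow_mul]
        simpa using Nat.sub_dvd_pow_sub_pow (2 ^ q) 1 c
      exact hp3.trans h7
  · have hb2 : D * (D * w) ^ 2 = 2 ^ q - 1 := by rw [← hbD]; ring
    exact Run7.h246.SqfreePart.sqfree_part_bound q D (D * w) hqodd hq3 hsq hb2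

end Pool.Agent.Results.MP_ea234d_nt.PowerfulShape
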